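import Pool.Agent.Helper94.PQ.Stmts

/-!
# FILT: properties of the ramification groups
-/

set_option autoImplicit false

namespace PQ

open WithZero Finset Pool.Agent.Helper13.Swan

section

variable {Ω P : Type} [Field Ω] [Group P] [MulSemiringAction P Ω]
  {w : Valuation Ω (WithZero (Multiplicative ℤ))} {π : Ω}

/-- the unit `g π / π` -/
noncomputable def un (π : Ω) (g : P) : Ω := (g • π) / π

theorem un_smul (hB : Base P w π) (g : P) : g • π = un π g * π := by
  unfold un
  rw [div_mul_cancel₀ _ hB.pi_ne]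

theorem un_mul (hB : Base P w π) (g h : P) : un π (g * h) = g • (un π h) * un π g := by
  have hp := hB.pi_ne
  have h1 : (g * h) • π = (g • (un π h) * un π g) * π := by
    rw [mul_smul, un_smul hB h, smul_mul', un_smul hB g]
    ring
  rw [un_smul hB] at h1
  exact mul_right_cancel₀ hp h1

theorem un_one (hB : Base P w π) : un π (1 : P) = 1 := by
  unfold un
  rw [one_smul, div_self hB.pi_ne]

theorem w_un (hB : Base P w π) (g : P) : w (un π g) = 1 := by
  unfold un
  rw [map_div₀, hB.inv]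
  exact div_self ((Valuation.ne_zero_iff w).2 hB.pi_ne)

theorem mem_iff (hB : Base P w π) (k : ℕ) (g : P) :
    g ∈ Rk hB k ↔ w (un π g - 1) ≤ ex k := by
  rw [mem_Rk]
  have e1 : g • π - π = (un π g - 1) * π := by
    rw [un_smul hB]; ring
  rw [e1, map_mul, hB.unif, ex_add]
  constructor
  · intro h
    exact le_of_mul_le_mul_right h (ex_pos 1)
  · intro h
    exact mul_le_mul_left h _

/-- every element acts trivially on the residue field -/
theorem w_res (hB : Base P w π) (g : P) {c : Ω} (hc : w c ≤ 1) : w (g • c - c) ≤ ex 1 := by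
  obtain ⟨y, hy, hy1⟩ := hB.res c hc
  have e1 : g • c - c = g • (c - y) - (c - y) := by
    rw [smul_sub, hy g]; ring
  rw [e1]
  rw [lt_one_iff] at hy1
  apply w.map_sub_le
  · rw [hB.inv]; exact hy1
  · exact hy1

theorem w_mul_le {x y : Ω} {a b : ℤ} (hx : w x ≤ ex a) (hy : w y ≤ ex b) :
    w (x * y) ≤ ex (a + b) := by
  rw [map_mul, ex_add]
  exact mul_le_mul' hx hy

theorem w_pow_sub_one {x : Ω} {a : ℤ} (hx1 : w x = 1) (hx : w (x - 1) ≤ ex a) (n : ℕ) :
    w (x ^ n - 1) ≤ ex a := by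
  have h := val_zpow_sub_one hx hx1 n
  rwa [zpow_natCast] at h

/-- the twist by `h` of an element of valuation at least `i` -/
theorem w_twist (hB : Base P w π) (h : P) (i : ℕ) {a : Ω} (ha : w a ≤ ex i) :
    w (h • a - un π h ^ i * a) ≤ ex (i + 1) := by
  have hp : π ^ i ≠ 0 := pow_ne_zero _ hB.pi_ne
  set c := a / π ^ i with hc
  have hac : a = π ^ i * c := by rw [hc]; field_simp
  have hwc : w c ≤ 1 := by
    rw [hc, map_div₀, map_pow, hB.unif, ex_pow, mul_one]
    exact div_le_one_of_le₀ ha zero_le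
  have e1 : h • a - un π h ^ i * a = (un π h ^ i * π ^ i) * (h • c - c) := by
    rw [hac, smul_mul', smul_pow', un_smul hB]
    ring
  rw [e1]
  refine w_mul_le ?_ (w_res hB h hwc)
  rw [map_mul, map_pow, w_un hB, one_pow, one_mul, map_pow, hB.unif, ex_pow, mul_one]

/-- additivity on `R_i`, `i ≥ 1` -/
theorem w_add (hB : Base P w π) {i : ℕ} (hi : 1 ≤ i) {g h : P} (hg : g ∈ Rk hB i)
    (hh : h ∈ Rk hB i) :
    w ((un π (g * h) - 1) - ((un π g - 1) + (un π h - 1))) ≤ ex (i + 1) := by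
  have hg' := (mem_iff hB i g).1 hg
  have hh' := (mem_iff hB i h).1 hh
  have hg1 : w (un π g - 1) ≤ ex 1 := by
    refine hg'.trans ?_
    rw [ex_le_ex]
    exact_mod_cast hi
  have e1 : (un π (g * h) - 1) - ((un π g - 1) + (un π h - 1)) =
      (g • (un π h - 1) - un π g ^ i * (un π h - 1)) + (un π g ^ i - 1) * (un π h - 1) +
        (un π g - 1) * (g • (un π h - 1)) := by
    rw [un_mul hB, smul_sub, smul_one]; ring
  rw [e1]
  apply w.map_add_le
  · apply w.map_add_le
    · exact w_twist hB g i hh'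
    · have h2 := w_mul_le (w_pow_sub_one (w_un hB g) hg1 i) hh'
      rwa [add_comm] at h2
  · have h3 : w (g • (un π h - 1)) ≤ ex i := by rw [hB.inv]; exact hh'
    have h2 := w_mul_le hg1 h3
    rwa [add_comm] at h2

theorem w_inv (hB : Base P w π) {i : ℕ} (hi : 1 ≤ i) {g : P} (hg : g ∈ Rk hB i) :
    w ((un π g⁻¹ - 1) + (un π g - 1)) ≤ ex (i + 1) := by
  have h1 := w_add hB hi hg ((Rk hB i).inv_mem hg)
  rw [mul_inv_cancel, un_one hB] at h1
  have e1 : (un π g⁻¹ - 1) + (un π g - 1) =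
      -(((1 : Ω) - 1) - ((un π g - 1) + (un π g⁻¹ - 1))) := by ring
  rw [e1, Valuation.map_neg]
  exact h1

/-- `un` is multiplicative modulo the maximal ideal -/
theorem w_un_mul (hB : Base P w π) (g h : P) : w (un π (g * h) - un π g * un π h) ≤ ex 1 := by
  have e1 : un π (g * h) - un π g * un π h = (g • un π h - un π h) * un π g := by
    rw [un_mul hB]; ring
  rw [e1, map_mul, w_un hB, mul_one]
  exact w_res hB g (w_un hB h).le

theorem w_un_pow (hB : Base P w π) (g : P) (n : ℕ) : w (un π (g ^ n) - un π g ^ n) ≤ ex 1 := by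
  induction n with
  | zero => rw [pow_zero, pow_zero, un_one hB, sub_self, map_zero]; exact zero_le
  | succ n ih =>
    have e1 : un π (g ^ (n + 1)) - un π g ^ (n + 1) =
        (un π (g ^ n * g) - un π (g ^ n) * un π g) + (un π (g ^ n) - un π g ^ n) * un π g := by
      rw [pow_succ, pow_succ]; ring
    rw [e1]
    apply w.map_add_le (w_un_mul hB _ _)
    rw [map_mul, w_un hB, mul_one]
    exact ih

variable [Fintype P]

/-- conjugation -/
theorem w_conj (hB : Base P w π) [FaithfulSMul P Ω] {i : ℕ} {g : P} (hg : g ∈ Rk hB i) (h : P) :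
    w ((un π (h * g * h⁻¹) - 1) - un π h ^ i * (un π g - 1)) ≤ ex (i + 1) := by
  have hg' := (mem_iff hB i g).1 hg
  have hp := hB.pi_ne
  set v := un π h⁻¹ with hv
  have hvp : h⁻¹ • π = v * π := un_smul hB h⁻¹
  have h1 := hB.val_smul_sub_le (⊥ : Subgroup P) g (c := v) (by
    intro σ hσ
    rw [Subgroup.mem_bot] at hσ
    rw [hσ, one_smul]) (w_un hB h⁻¹).le
  have h2 : nm (⊥ : Subgroup P) π = π := by
    rw [nm_def, Fintype.prod_unique]
    have h3 : ((default : (⊥ : Subgroup P)) : P) = 1 := (Subgroup.mem_bot).1 (Subtype.prop _)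
    rw [h3, one_smul]
  rw [h2] at h1
  have h3 : w (g • v - v) ≤ ex (i + 1) := h1.trans hg
  have e1 : (un π (h * g * h⁻¹) - 1) * π = π * (h • (un π g - 1)) + h • ((g • v - v) * g • π) := by
    have e2 : (un π (h * g * h⁻¹) - 1) * π = h • (g • (h⁻¹ • π) - h⁻¹ • π) := by
      rw [sub_mul, ← un_smul hB, mul_smul, mul_smul, smul_sub, smul_inv_smul, one_mul]
    have e3 : h • (v * π) = π := by rw [← hvp, smul_inv_smul]
    rw [e2, hvp]
    have e4 : g • (v * π) - v * π = (v * π) * (un π g - 1) + (g • v - v) * g • π := by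
      rw [smul_mul', un_smul hB g]; ring
    rw [e4, smul_add, smul_mul' h (v * π), e3]
  have e5 : (un π (h * g * h⁻¹) - 1) - h • (un π g - 1) =
      (h • ((g • v - v) * g • π)) / π := by
    rw [eq_div_iff hp]
    linear_combination e1
  have h4 : w ((un π (h * g * h⁻¹) - 1) - h • (un π g - 1)) ≤ ex (i + 1) := by
    rw [e5, map_div₀, hB.inv, map_mul, hB.inv, mul_div_cancel_right₀]
    · exact h3
    · exact (Valuation.ne_zero_iff w).2 hp
  have e6 : (un π (h * g * h⁻¹) - 1) - un π h ^ i * (un π g - 1) =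
      ((un π (h * g * h⁻¹) - 1) - h • (un π g - 1)) +
        (h • (un π g - 1) - un π h ^ i * (un π g - 1)) := by ring
  rw [e6]
  exact w.map_add_le h4 (w_twist hB h i hg')

/-- the commutator -/
theorem w_comm (hB : Base P w π) [FaithfulSMul P Ω] {i : ℕ} (hi : 1 ≤ i) {g : P}
    (hg : g ∈ Rk hB i) (h : P) :
    w ((un π (h * g * h⁻¹ * g⁻¹) - 1) - (un π h ^ i - 1) * (un π g - 1)) ≤ ex (i + 1) := by
  have hc : h * g * h⁻¹ ∈ Rk hB i := (Rk_normal hB i).conj_mem g hg h
  have h1 := w_add hB hi hc ((Rk hB i).inv_mem hg)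
  have h2 := w_conj hB hg h
  have h3 := w_inv hB hi hg
  have e1 : (un π (h * g * h⁻¹ * g⁻¹) - 1) - (un π h ^ i - 1) * (un π g - 1) =
      ((un π (h * g * h⁻¹ * g⁻¹) - 1) - ((un π (h * g * h⁻¹) - 1) + (un π g⁻¹ - 1))) +
      ((un π (h * g * h⁻¹) - 1) - un π h ^ i * (un π g - 1)) +
      ((un π g⁻¹ - 1) + (un π g - 1)) := by ring
  rw [e1]
  exact w.map_add_le (w.map_add_le h1 h2) h3

/-- the other product -/
theorem w_anti (hB : Base P w π) [FaithfulSMul P Ω] {i : ℕ} (hi : 1 ≤ i) {g : P}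
    (hg : g ∈ Rk hB i) (h : P) :
    w ((un π (h * g * h⁻¹ * g) - 1) - (un π h ^ i + 1) * (un π g - 1)) ≤ ex (i + 1) := by
  have hc : h * g * h⁻¹ ∈ Rk hB i := (Rk_normal hB i).conj_mem g hg h
  have h1 := w_add hB hi hc hg
  have h2 := w_conj hB hg h
  have e1 : (un π (h * g * h⁻¹ * g) - 1) - (un π h ^ i + 1) * (un π g - 1) =
      ((un π (h * g * h⁻¹ * g) - 1) - ((un π (h * g * h⁻¹) - 1) + (un π g - 1))) +
      ((un π (h * g * h⁻¹) - 1) - un π h ^ i * (un π g - 1)) := by ring
  rw [e1]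
  exact w.map_add_le h1 h2

omit [Fintype P] in
theorem w_npow (hB : Base P w π) {i : ℕ} (hi : 1 ≤ i) {g : P} (hg : g ∈ Rk hB i) (n : ℕ) :
    w ((un π (g ^ n) - 1) - (n : Ω) * (un π g - 1)) ≤ ex (i + 1) := by
  induction n with
  | zero =>
    rw [pow_zero, un_one hB]
    simp
  | succ n ih =>
    have h1 := w_add hB hi ((Rk hB i).pow_mem hg n) hg
    rw [← pow_succ] at h1
    have e1 : (un π (g ^ (n + 1)) - 1) - ((n + 1 : ℕ) : Ω) * (un π g - 1) =
        ((un π (g ^ (n + 1)) - 1) - ((un π (g ^ n) - 1) + (un π g - 1))) +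
          ((un π (g ^ n) - 1) - (n : Ω) * (un π g - 1)) := by
      push_cast; ring
    rw [e1]
    exact w.map_add_le h1 ih

end

theorem filt (h1 : ST_TAME) : ST_FILT := by
  intro Ω P _ _ _ _ _ w π hB p hp hwp t ht
  obtain ⟨hpg, hidx, _⟩ := h1 Ω P w π hB p hp hwp
  have hn : ∀ i, (Rk hB i).Normal := fun i => Rk_normal hB i
  -- the order of `t` in the quotient
  have hgen : ∀ x : P ⧸ Rk hB 1, x ∈ Subgroup.zpowers (t : P ⧸ Rk hB 1) := by
    intro x
    obtain ⟨g, rfl⟩ := QuotientGroup.mk_surjective x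
    obtain ⟨j, hj⟩ := ht g
    rw [← QuotientGroup.eq_one_iff, QuotientGroup.mk_mul, QuotientGroup.mk_pow] at hj
    have h3 : (g : P ⧸ Rk hB 1) = ((t : P ⧸ Rk hB 1) ^ j)⁻¹ := eq_inv_of_mul_eq_one_right hj
    rw [h3]
    exact Subgroup.inv_mem _ (Subgroup.pow_mem _ (Subgroup.mem_zpowers _) j)
  have hord : orderOf (t : P ⧸ Rk hB 1) = (Rk hB 1).index := by
    rw [orderOf_eq_card_of_forall_mem_zpowers hgen]
    rfl
  have hmem : ∀ j : ℕ, t ^ j ∈ Rk hB 1 ↔ (Rk hB 1).index ∣ j := by
    intro j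
    rw [← hord, orderOf_dvd_iff_pow_eq_one, ← QuotientGroup.mk_pow, QuotientGroup.eq_one_iff]
  -- the congruence of the powers of the unit of `t`
  have hun : ∀ n : ℕ, w (un π t ^ n - 1) ≤ ex 1 ↔ (Rk hB 1).index ∣ n := by
    intro n
    rw [← hmem n, mem_iff hB 1]
    have h3 := w_un_pow hB t n
    constructor
    · intro h4
      have e1 : un π (t ^ n) - 1 = (un π (t ^ n) - un π t ^ n) + (un π t ^ n - 1) := by ring
      rw [e1]
      exact w.map_add_le h3 h4
    · intro h4
      have e1 : un π t ^ n - 1 = (un π (t ^ n) - 1) - (un π (t ^ n) - un π t ^ n) := by ring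
      rw [e1]
      exact w.map_sub_le h4 h3
  have hun2 : ∀ (i j : ℕ), w (un π (t ^ j) ^ i - un π t ^ (i * j)) ≤ ex 1 := by
    intro i j
    have h3 := w_un_pow hB t j
    set x := un π (t ^ j) with hx
    set y := un π t ^ j with hy
    have hwx : w x = 1 := w_un hB _
    have hwy : w y = 1 := by rw [hy, map_pow, w_un hB, one_pow]
    have hy0 : y ≠ 0 := by
      intro h0
      rw [h0, map_zero] at hwy
      exact zero_ne_one hwy
    have h4 : w (x / y - 1) ≤ ex 1 := by
      have e1 : x / y - 1 = (x - y) / y := by field_simp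
      rw [e1, map_div₀, hwy, div_one]
      exact h3
    have h5 : w (x / y) = 1 := by rw [map_div₀, hwx, hwy, div_one]
    have h6 := w_pow_sub_one h5 h4 i
    have e2 : x ^ i - un π t ^ (i * j) = ((x / y) ^ i - 1) * y ^ i := by
      rw [div_pow, sub_mul, div_mul_cancel₀ _ (pow_ne_zero _ hy0), one_mul, hy, ← pow_mul,
        mul_comm j i]
    rw [e2, map_mul, map_pow, hwy, one_pow, mul_one]
    exact h6
  have hex : ∀ i : ℕ, ex ((i : ℤ) + 1) < ex i := by
    intro i
    rw [ex_lt_ex]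
    omega
  refine ⟨(Rk hB 1).index, ?_⟩
  refine
    { top := ?_, anti := Rk_antitone hB, normal := hn, bot := hB.exists_Rk_bot,
      e_pos := Nat.pos_of_ne_zero Subgroup.FiniteIndex.index_ne_zero, e_cop := hidx,
      pgrp := hpg, card := ((Rk hB 1).index_mul_card).symm, ord := hmem, gen := ht,
      comm := ?_, pow := ?_, fix := ?_, neg := ?_ }
  · rw [eq_top_iff]
    intro g _
    rw [mem_Rk]
    simpa using hB.val_pi_sub_le g
  · intro i hi g hg h hh
    rw [mem_iff hB]
    have h3 := w_comm hB hi hg h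
    have h4 := w_mul_le (w_pow_sub_one (w_un hB h) ((mem_iff hB 1 h).1 hh) i)
      ((mem_iff hB i g).1 hg)
    have e1 : un π (h * g * h⁻¹ * g⁻¹) - 1 =
        ((un π (h * g * h⁻¹ * g⁻¹) - 1) - (un π h ^ i - 1) * (un π g - 1)) +
          (un π h ^ i - 1) * (un π g - 1) := by ring
    rw [e1]
    push_cast
    push_cast at h4
    rw [add_comm (1 : ℤ)] at h4
    exact w.map_add_le h3 h4
  · intro i hi g hg
    rw [mem_iff hB]
    have h3 := w_npow hB hi hg p
    rw [lt_one_iff] at hwp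
    have h4 := w_mul_le hwp ((mem_iff hB i g).1 hg)
    have e1 : un π (g ^ p) - 1 =
        ((un π (g ^ p) - 1) - (p : Ω) * (un π g - 1)) + (p : Ω) * (un π g - 1) := by ring
    rw [e1]
    push_cast
    rw [add_comm (1 : ℤ)] at h4
    exact w.map_add_le h3 h4
  · intro i hi g hg hg' j
    rw [mem_iff hB]
    have h3 := w_comm hB hi hg (t ^ j)
    have hw1 := (mem_iff hB i g).1 hg
    have hw2 : ex ((i : ℤ) + 1) < w (un π g - 1) := by
      rw [mem_iff hB] at hg'
      push_cast at hg'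
      exact not_le.1 hg'
    have hw0 : w (un π g - 1) ≠ 0 := by
      intro h0
      rw [h0] at hw2
      exact absurd hw2 (not_lt.2 zero_le)
    have hw3 : w (un π g - 1) = ex i := by
      obtain ⟨m, hm⟩ := exists_ex hw0
      rw [hm] at hw1 hw2 ⊢
      rw [ex_le_ex] at hw1
      rw [ex_lt_ex] at hw2
      congr 1
      omega
    have hstep : w (un π (t ^ j * g * (t ^ j)⁻¹ * g⁻¹) - 1) ≤ ex ((i + 1 : ℕ) : ℤ) ↔
        w ((un π (t ^ j) ^ i - 1) * (un π g - 1)) ≤ ex ((i : ℤ) + 1) := by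
      push_cast
      constructor
      · intro h4
        have e1 : (un π (t ^ j) ^ i - 1) * (un π g - 1) =
            (un π (t ^ j * g * (t ^ j)⁻¹ * g⁻¹) - 1) -
            ((un π (t ^ j * g * (t ^ j)⁻¹ * g⁻¹) - 1) - (un π (t ^ j) ^ i - 1) * (un π g - 1)) := by
          ring
        rw [e1]
        exact w.map_sub_le h4 h3
      · intro h4
        have e1 : un π (t ^ j * g * (t ^ j)⁻¹ * g⁻¹) - 1 =
            ((un π (t ^ j * g * (t ^ j)⁻¹ * g⁻¹) - 1) - (un π (t ^ j) ^ i - 1) * (un π g - 1)) +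
            (un π (t ^ j) ^ i - 1) * (un π g - 1) := by ring
        rw [e1]
        exact w.map_add_le h3 h4
    rw [hstep, map_mul, hw3, add_comm (i : ℤ) 1, ex_add]
    have hstep2 : w (un π (t ^ j) ^ i - 1) * ex i ≤ ex 1 * ex i ↔
        w (un π (t ^ j) ^ i - 1) ≤ ex 1 := by
      constructor
      · intro h; exact le_of_mul_le_mul_right h (ex_pos _)
      · intro h; exact mul_le_mul_left h _
    rw [hstep2, ← hun (i * j)]
    have h5 := hun2 i j
    constructor
    · intro h4
      have e1 : un π t ^ (i * j) - 1 = (un π (t ^ j) ^ i - 1) -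
          (un π (t ^ j) ^ i - un π t ^ (i * j)) := by ring
      rw [e1]
      exact w.map_sub_le h4 h5
    · intro h4
      have e1 : un π (t ^ j) ^ i - 1 = (un π (t ^ j) ^ i - un π t ^ (i * j)) +
          (un π t ^ (i * j) - 1) := by ring
      rw [e1]
      exact w.map_add_le h5 h4
  · intro i hi g hg j hj1 hj2
    rw [mem_iff hB]
    have h3 := w_anti hB hi hg (t ^ j)
    have hw1 := (mem_iff hB i g).1 hg
    set z := un π t ^ (i * j) with hz
    have hz1 : ¬ w (z - 1) ≤ ex 1 := by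
      intro h4
      exact hj2 ((hun (i * j)).1 h4)
    have hwz : w z = 1 := by rw [hz, map_pow, w_un hB, one_pow]
    have hz2 : w (z - 1) = 1 := by
      rw [← lt_one_iff] at hz1
      refine le_antisymm ?_ (not_lt.1 hz1)
      apply w.map_sub_le
      · rw [hwz]
      · rw [map_one]
    have hz3 : w ((z - 1) * (z + 1)) ≤ ex 1 := by
      have e1 : (z - 1) * (z + 1) = un π t ^ (2 * (i * j)) - 1 := by
        rw [hz, mul_comm 2 (i * j), pow_mul]; ring
      rw [e1]
      exact (hun _).2 hj1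
    have hz4 : w (z + 1) ≤ ex 1 := by
      rw [map_mul, hz2, one_mul] at hz3
      exact hz3
    have h5 := hun2 i j
    have h6 : w (un π (t ^ j) ^ i + 1) ≤ ex 1 := by
      have e1 : un π (t ^ j) ^ i + 1 = (un π (t ^ j) ^ i - un π t ^ (i * j)) + (z + 1) := by
        rw [hz]; ring
      rw [e1]
      exact w.map_add_le h5 hz4
    have h7 := w_mul_le h6 hw1
    rw [add_comm (1 : ℤ)] at h7
    have e1 : un π (t ^ j * g * (t ^ j)⁻¹ * g) - 1 =
        ((un π (t ^ j * g * (t ^ j)⁻¹ * g) - 1) - (un π (t ^ j) ^ i + 1) * (un π g - 1)) +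
          (un π (t ^ j) ^ i + 1) * (un π g - 1) := by ring
    rw [e1]
    push_cast
    exact w.map_add_le h3 h7

end PQ
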