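import Pool.Agent.Helper94.PQ.StmtsT

/-!
# All orthogonal representations of two-groups (row GALL)
-/

set_option autoImplicit false

open scoped Classical

namespace PQ17

open PQ BKA Pool.Agent.Helper13.Swan

/-- the statement for one group -/
def GG (P k : Type) [Group P] [Field k] : Prop :=
  ∀ [Fintype P] (Ω : Type) [Field Ω] [CharZero Ω] [MulSemiringAction P Ω] [FaithfulSMul P Ω]
    (w : Valuation Ω (WithZero (Multiplicative ℤ))) (π : Ω), Base P w π →
  ∀ (V : Type) [AddCommGroup V] [Module k V] [FiniteDimensional k V]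
    (B : V →ₗ[k] V →ₗ[k] k), Symm B →
  ∀ r : P →* (V →ₗ[k] V), (∀ g x y, B (r g x) (r g y) = B x y) → Good w π r

section eig

variable {G k V : Type} [Group G] [Field k] [AddCommGroup V] [Module k V]

/-- eigenspaces -/
def eig (T : V →ₗ[k] V) (e : k) : Submodule k V := LinearMap.ker (T - e • 1)

theorem mem_eig {T : V →ₗ[k] V} {e : k} {v : V} : v ∈ eig T e ↔ T v = e • v := by
  unfold eig
  rw [LinearMap.mem_ker, LinearMap.sub_apply, sub_eq_zero]
  rfl

theorem isCompl_eig [CharZero k] (T : V →ₗ[k] V) (hT : T * T = 1) :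
    IsCompl (eig T 1) (eig T (-1)) := by
  have hTT : ∀ v, T (T v) = v := fun v => by
    have h : (T * T) v = (1 : V →ₗ[k] V) v := by rw [hT]
    exact h
  constructor
  · rw [Submodule.disjoint_def]
    intro v h1 h2
    rw [mem_eig] at h1 h2
    rw [h1, one_smul, neg_smul, one_smul] at h2
    have h3 : (2 : k) • v = 0 := by
      rw [two_smul]
      nth_rewrite 1 [h2]
      exact neg_add_cancel v
    rcases smul_eq_zero.1 h3 with h4 | h4
    · exact absurd h4 two_ne_zero
    · exact h4
  · rw [codisjoint_iff, eq_top_iff]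
    intro v _
    rw [Submodule.mem_sup]
    refine ⟨(2 : k)⁻¹ • (v + T v), ?_, (2 : k)⁻¹ • (v - T v), ?_, ?_⟩
    · rw [mem_eig, map_smul, map_add, hTT, one_smul, add_comm]
    · rw [mem_eig, map_smul, map_sub, hTT, neg_smul, one_smul, ← smul_neg, neg_sub]
    · rw [← smul_add, add_add_sub_cancel, ← two_smul k v, smul_smul,
        inv_mul_cancel₀ two_ne_zero, one_smul]

theorem stab_eig (r : G →* (V →ₗ[k] V)) (x : G) (hc : ∀ g, g * x = x * g) (e : k) :
    ∀ g, ∀ v ∈ eig (r x) e, r g v ∈ eig (r x) e := by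
  intro g v hv
  rw [mem_eig] at hv ⊢
  have h1 : (r x * r g) v = (r g * r x) v := by
    rw [← map_mul, ← map_mul, hc g]
  have h2 : r x (r g v) = r g (r x v) := h1
  rw [h2, hv, map_smul]

theorem symm_eig [CharZero k] (B : V →ₗ[k] V →ₗ[k] k) (hB : Symm B) (T : V →ₗ[k] V)
    (hT : ∀ x y, B (T x) (T y) = B x y) (hTT : T * T = 1) (e : k) (he : e * e = 1) :
    Symm (B.domRestrict₁₂ (eig T e) (eig T e)) := by
  have hT2 : ∀ v, T (T v) = v := fun v => by
    have h : (T * T) v = (1 : V →ₗ[k] V) v := by rw [hTT]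
    exact h
  refine ⟨fun x y => hB.symm _ _, ?_⟩
  intro y hy
  apply Subtype.ext
  apply hB.nondeg
  intro x
  have hy2 := mem_eig.1 y.2
  have m1 : (2 : k)⁻¹ • (x + e • T x) ∈ eig T e := by
    rw [mem_eig, map_smul, map_add, map_smul, hT2, smul_comm e (2 : k)⁻¹, smul_add e, smul_smul,
      he, one_smul, add_comm]
  have h1 : B ((2 : k)⁻¹ • (x + e • T x)) (y : V) = 0 := hy ⟨_, m1⟩
  have h2 : B (T x) (y : V) = e * B x (y : V) := by
    have h3 : B (T x) (T (e • (y : V))) = B x (e • (y : V)) := hT _ _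
    rw [map_smul, hy2, smul_smul, he, one_smul, map_smul, smul_eq_mul] at h3
    exact h3
  rw [map_smul, map_add, map_smul, LinearMap.smul_apply, LinearMap.add_apply,
    LinearMap.smul_apply, h2, smul_eq_mul, smul_eq_mul, ← mul_assoc, he, one_mul,
    ← two_mul, ← mul_assoc, inv_mul_cancel₀ two_ne_zero, one_mul] at h1
  exact h1

theorem r_sq (r : G →* (V →ₗ[k] V)) (x : G) (hx : x * x = 1) : r x * r x = 1 := by
  rw [← map_mul, hx, map_one]

end eig

section main

theorem base_sub {Ω P : Type} [Field Ω] [Group P] [MulSemiringAction P Ω] (C : Subgroup P)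
    (w : Valuation Ω (WithZero (Multiplicative ℤ))) (π : Ω) (hB : Base P w π) :
    Base C w π where
  inv := fun τ x => hB.inv (τ : P) x
  unif := hB.unif
  res := by
    intro x hx
    obtain ⟨y, h1, h2⟩ := hB.res x hx
    exact ⟨y, fun τ => h1 (τ : P), h2⟩

theorem zpow_fix {G k V : Type} [Group G] [Field k] [AddCommGroup V] [Module k V]
    (r : G →* (V →ₗ[k] V)) (x : G) (h : r x = 1) :
    ∀ n ∈ Subgroup.zpowers x, r n = 1 := by
  have h1 : Subgroup.zpowers x ≤ r.ker := by
    rw [Subgroup.zpowers_le]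
    exact h
  intro n hn
  exact h1 hn

/-- a central element that acts trivially -/
theorem good_quot (hQUO : ST_GQUO) {P k : Type} [Group P] [Field k] [CharZero k]
    (x : P) (hc : ∀ g, g * x = x * g)
    (hQ : ∀ [(Subgroup.zpowers x).Normal], GG (P ⧸ Subgroup.zpowers x) k)
    [Fintype P] (Ω : Type) [Field Ω] [CharZero Ω] [MulSemiringAction P Ω] [FaithfulSMul P Ω]
    (w : Valuation Ω (WithZero (Multiplicative ℤ))) (π : Ω) (hb : Base P w π)
    (V : Type) [AddCommGroup V] [Module k V] [FiniteDimensional k V]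
    (B : V →ₗ[k] V →ₗ[k] k) (hB : Symm B)
    (r : P →* (V →ₗ[k] V)) (hr : ∀ g x y, B (r g x) (r g y) = B x y) (hx : r x = 1) :
    Good w π r := by
  have : (Subgroup.zpowers x).Normal := by
    refine ⟨fun n hn g => ?_⟩
    obtain ⟨j, rfl⟩ := hn
    refine ⟨j, ?_⟩
    have h1 : Commute g x := hc g
    have h2 : g * x ^ j = x ^ j * g := (h1.zpow_right j)
    show x ^ j = g * x ^ j * g⁻¹
    rw [h2, mul_inv_cancel_right]
  refine hQUO P k V (Subgroup.zpowers x) r
    (QuotientGroup.lift (Subgroup.zpowers x) r (zpow_fix r x hx)) (fun g => rfl) ?_ Ω w π hb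
  intro Ω' _ _ _ _ w' π' hb'
  refine hQ Ω' w' π' hb' V B hB _ ?_
  intro g x y
  obtain ⟨g, rfl⟩ := QuotientGroup.mk_surjective g
  exact hr g x y

/-- the decomposition for a central involution -/
theorem good_split (hADD : ST_GADD) {P k : Type} [Group P] [Field k] [CharZero k]
    (x : P) (hx : x * x = 1) (hc : ∀ g, g * x = x * g)
    [Fintype P] (Ω : Type) [Field Ω] [CharZero Ω] [MulSemiringAction P Ω]
    (w : Valuation Ω (WithZero (Multiplicative ℤ))) (π : Ω)
    (V : Type) [AddCommGroup V] [Module k V] [FiniteDimensional k V]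
    (r : P →* (V →ₗ[k] V))
    (h1 : Good w π (subR r (eig (r x) 1) (stab_eig r x hc 1)))
    (h2 : Good w π (subR r (eig (r x) (-1)) (stab_eig r x hc (-1)))) :
    Good w π r :=
  hADD Ω P w π k V r _ _ (isCompl_eig (r x) (r_sq r x hx)) (stab_eig r x hc 1)
    (stab_eig r x hc (-1)) h1 h2

theorem sub_one {P k V : Type} [Group P] [Field k] [AddCommGroup V] [Module k V]
    (r : P →* (V →ₗ[k] V)) (x : P) (hc : ∀ g, g * x = x * g) :
    subR r (eig (r x) 1) (stab_eig r x hc 1) x = 1 := by
  apply LinearMap.ext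
  intro v
  apply Subtype.ext
  have h := mem_eig.1 v.2
  rw [one_smul] at h
  exact h

theorem sub_neg {P k V : Type} [Group P] [Field k] [AddCommGroup V] [Module k V]
    (r : P →* (V →ₗ[k] V)) (x : P) (hc : ∀ g, g * x = x * g) :
    subR r (eig (r x) (-1)) (stab_eig r x hc (-1)) x = -1 := by
  apply LinearMap.ext
  intro v
  apply Subtype.ext
  have h := mem_eig.1 v.2
  rw [neg_smul, one_smul] at h
  exact h

/-- the part where a central involution acts trivially -/
theorem good_plus (hQUO : ST_GQUO) {P k : Type} [Group P] [Field k] [CharZero k]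
    (x : P) (hx : x * x = 1) (hc : ∀ g, g * x = x * g)
    (hQ : ∀ [(Subgroup.zpowers x).Normal], GG (P ⧸ Subgroup.zpowers x) k)
    [Fintype P] (Ω : Type) [Field Ω] [CharZero Ω] [MulSemiringAction P Ω] [FaithfulSMul P Ω]
    (w : Valuation Ω (WithZero (Multiplicative ℤ))) (π : Ω) (hb : Base P w π)
    (V : Type) [AddCommGroup V] [Module k V] [FiniteDimensional k V]
    (B : V →ₗ[k] V →ₗ[k] k) (hB : Symm B)
    (r : P →* (V →ₗ[k] V)) (hr : ∀ g x y, B (r g x) (r g y) = B x y) :
    Good w π (subR r (eig (r x) 1) (stab_eig r x hc 1)) :=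
  good_quot hQUO x hc hQ Ω w π hb (eig (r x) 1) _
    (symm_eig B hB (r x) (hr x) (r_sq r x hx) 1 (one_mul 1)) _
    (fun g y y' => hr g (y : V) (y' : V)) (sub_one r x hc)

theorem good_thin (hADD : ST_GADD) (hQUO : ST_GQUO) (hTHN : ST_GTHN) (P k : Type) [Group P]
    [Field k] [CharZero k] [IsAlgClosed k] (hP : IsPGroup 2 P) (z : P) (hT : Thin P z)
    (hQ : ∀ [(Subgroup.zpowers z).Normal], GG (P ⧸ Subgroup.zpowers z) k) : GG P k := by
  intro _ Ω _ _ _ _ w π hb V _ _ _ B hB r hr
  obtain ⟨a, M, hM, ho, hza, hc, -⟩ := id hT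
  have hzz : z * z = 1 := by
    rw [hza, ← pow_add, ← two_mul, ← ho]
    exact pow_orderOf_eq_one a
  refine good_split hADD z hzz hc Ω w π V r ?_ ?_
  · exact good_plus hQUO z hzz hc hQ Ω w π hb V B hB r hr
  · exact hTHN Ω P w π hb hP z hT k (eig (r z) (-1)) _
      (symm_eig B hB (r z) (hr z) (r_sq r z hzz) (-1) (by ring)) _
      (fun g y y' => hr g (y : V) (y' : V)) (sub_neg r z hc)

/-- representations of groups with a normal four-group on which `z` acts by `-1` -/
theorem good_four_aux (hADD : ST_GADD) (hQUO : ST_GQUO) (hIND : ST_GIND) (P k : Type) [Group P]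
    [Field k] [CharZero k] (z a : P)
    (ha : a ≠ 1) (haz : a ≠ z) (hzz : z * z = 1) (haa : a * a = 1)
    (hc : ∀ g, g * z = z * g) (hconj : ∀ g, g * a * g⁻¹ = a ∨ g * a * g⁻¹ = a * z)
    (hQ : ∀ (x : P), x ≠ 1 → ∀ [(Subgroup.zpowers x).Normal], GG (P ⧸ Subgroup.zpowers x) k)
    (hC : ∀ C : Subgroup P, C ≠ ⊤ → GG C k)
    [Fintype P] (Ω : Type) [Field Ω] [CharZero Ω] [MulSemiringAction P Ω] [FaithfulSMul P Ω]
    (w : Valuation Ω (WithZero (Multiplicative ℤ))) (π : Ω) (hb : Base P w π)
    (V : Type) [AddCommGroup V] [Module k V] [FiniteDimensional k V]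
    (B : V →ₗ[k] V →ₗ[k] k) (hB : Symm B)
    (r : P →* (V →ₗ[k] V)) (hr : ∀ g x y, B (r g x) (r g y) = B x y) (hz : r z = -1) :
    Good w π r := by
  by_cases hac : ∀ g, g * a = a * g
  · have haz1 : a * z ≠ 1 := by
      intro h
      apply haz
      rw [eq_inv_of_mul_eq_one_left h]
      exact (eq_inv_of_mul_eq_one_left hzz).symm
    refine good_split hADD a haa hac Ω w π V r ?_ ?_
    · exact good_plus hQUO a haa hac (fun {_} => hQ a ha) Ω w π hb V B hB r hr
    · refine good_quot hQUO (a * z) (fun g => by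
          rw [← mul_assoc, hac g, mul_assoc, hc g, mul_assoc])
        (fun {_} => hQ (a * z) haz1) Ω w π hb (eig (r a) (-1)) _
        (symm_eig B hB (r a) (hr a) (r_sq r a haa) (-1) (by ring)) _
        (fun g y y' => hr g (y : V) (y' : V)) ?_
      apply LinearMap.ext
      intro v
      apply Subtype.ext
      have h := mem_eig.1 v.2
      rw [neg_smul, one_smul] at h
      show r (a * z) (v : V) = v
      rw [map_mul, hz, mul_neg, mul_one, LinearMap.neg_apply, h, neg_neg]
  · push Not at hac
    obtain ⟨s, hs⟩ := hac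
    let C : Subgroup P := Subgroup.centralizer {a}
    have memC : ∀ g, g ∈ C ↔ g * a = a * g := by
      intro g
      rw [Subgroup.mem_centralizer_singleton_iff]
    have hsC : s ∉ C := by
      rw [memC]
      exact hs
    have hCt : C ≠ ⊤ := by
      intro h
      apply hsC
      rw [h]
      exact Subgroup.mem_top _
    have notC : ∀ g, g ∉ C → g * a = a * z * g := by
      intro g hg
      rcases hconj g with h | h
      · exfalso
        apply hg
        rw [memC]
        conv_rhs => rw [← h]
        group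
      · conv_rhs => rw [← h]
        group
    have hCC : ∀ g : P, g ∈ C ∨ s⁻¹ * g ∈ C := by
      intro g
      by_cases hg : g ∈ C
      · exact Or.inl hg
      · right
        rw [memC]
        have h1 := notC g hg
        have h2 := notC s hsC
        have h3 : g * a * g⁻¹ = s * a * s⁻¹ := by
          rw [h1, h2]
          group
        calc s⁻¹ * g * a = s⁻¹ * (g * a * g⁻¹) * g := by group
          _ = s⁻¹ * (s * a * s⁻¹) * g := by rw [h3]
          _ = a * (s⁻¹ * g) := by group
    have hstab : ∀ g : C, ∀ x ∈ eig (r a) 1, (r.comp C.subtype) g x ∈ eig (r a) 1 := by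
      intro g x hx
      rw [mem_eig, one_smul] at hx ⊢
      have h1 : (r a * r (g : P)) x = (r (g : P) * r a) x := by
        rw [← map_mul, ← map_mul, (memC g).1 g.2]
      have h2 : r a (r (g : P) x) = r (g : P) (r a x) := h1
      show r a (r (g : P) x) = r (g : P) x
      rw [h2, hx]
    -- `s` exchanges the two eigenspaces
    have hsa : r a * r s = -(r s * r a) := by
      have h1 : a * s * z = s * a := by
        rw [notC s hsC, mul_assoc, hc s, ← mul_assoc]
      have h2 : r s * r a = r a * r s * r z := by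
        rw [← map_mul, ← map_mul, ← map_mul, h1]
      rw [h2, hz, mul_neg, mul_one, neg_neg]
    have hmap : (eig (r a) 1).map (r s) = eig (r a) (-1) := by
      ext v
      rw [Submodule.mem_map]
      constructor
      · rintro ⟨u, hu, rfl⟩
        rw [mem_eig, one_smul] at hu
        rw [mem_eig]
        have h1 : (r a * r s) u = (-(r s * r a)) u := by rw [hsa]
        have h2 : r a (r s u) = -(r s (r a u)) := h1
        rw [h2, hu, neg_smul, one_smul]
      · intro hv
        rw [mem_eig, neg_smul, one_smul] at hv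
        have hss : ∀ u, r s (r s⁻¹ u) = u := by
          intro u
          have h1 : (r s * r s⁻¹) u = u := by
            rw [← map_mul, mul_inv_cancel, map_one]
            rfl
          exact h1
        have hss' : ∀ u, r s⁻¹ (r s u) = u := by
          intro u
          have h1 : (r s⁻¹ * r s) u = u := by
            rw [← map_mul, inv_mul_cancel, map_one]
            rfl
          exact h1
        refine ⟨r s⁻¹ v, ?_, hss v⟩
        rw [mem_eig, one_smul]
        have h1 : (r a * r s) (r s⁻¹ v) = (-(r s * r a)) (r s⁻¹ v) := by rw [hsa]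
        have h2 : r a (r s (r s⁻¹ v)) = -(r s (r a (r s⁻¹ v))) := h1
        rw [hss, hv, neg_inj] at h2
        have h3 := congrArg (r s⁻¹) h2
        rw [hss'] at h3
        exact h3.symm
    refine hIND Ω P w π hb k V r C s hsC hCC (eig (r a) 1) hstab ?_ ?_
    · rw [hmap]
      exact isCompl_eig (r a) (r_sq r a haa)
    · refine hC C hCt Ω w π (base_sub C w π hb) (eig (r a) 1) _
        (symm_eig B hB (r a) (hr a) (r_sq r a haa) 1 (one_mul 1)) _ ?_
      intro g y y'
      exact hr (g : P) (y : V) (y' : V)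

theorem good_four (hADD : ST_GADD) (hQUO : ST_GQUO) (hIND : ST_GIND) (P k : Type) [Group P]
    [Field k] [CharZero k] (hT : Four P)
    (hQ : ∀ (x : P), x ≠ 1 → ∀ [(Subgroup.zpowers x).Normal], GG (P ⧸ Subgroup.zpowers x) k)
    (hC : ∀ C : Subgroup P, C ≠ ⊤ → GG C k) : GG P k := by
  intro _ Ω _ _ _ _ w π hb V _ _ _ B hB r hr
  obtain ⟨z, a, hz, ha, haz, hzz, haa, hc, hconj⟩ := hT
  refine good_split hADD z hzz hc Ω w π V r ?_ ?_
  · exact good_plus hQUO z hzz hc (fun {_} => hQ z hz) Ω w π hb V B hB r hr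
  · exact good_four_aux hADD hQUO hIND P k z a ha haz hzz haa hc hconj hQ hC Ω w π hb
      (eig (r z) (-1)) _ (symm_eig B hB (r z) (hr z) (r_sq r z hzz) (-1) (by ring)) _
      (fun g y y' => hr g (y : V) (y' : V)) (sub_neg r z hc)

theorem good_trivial (P k : Type) [Group P] [Field k] [CharZero k] (hP : ¬ Nontrivial P) :
    GG P k := by
  have : Subsingleton P := not_nontrivial_iff_subsingleton.1 hP
  intro _ Ω _ _ _ _ w π hb V _ _ _ B hB r hr
  refine ⟨1, 0, 0, one_ne_zero, ?_, ?_, ?_⟩
  · intro g
    left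
    have h3 : g = 1 := Subsingleton.elim _ _
    rw [h3, map_one, one_smul]
    exact ⟨LinearMap.det_id, rfl⟩
  · rw [Int.cast_zero]
    symm
    apply Finset.sum_eq_zero
    intro g _
    have h3 : g = 1 := Subsingleton.elim _ _
    rw [h3, map_one, LinearMap.trace_one, sub_self, zero_mul]
  · rw [map_one, one_pow, mul_zero, add_zero, ex_zero]

theorem card_quot_lt {G : Type} [Group G] [Finite G] (x : G) (hx : x ≠ 1) :
    Nat.card (G ⧸ Subgroup.zpowers x) < Nat.card G := by
  have h1 := (Subgroup.zpowers x).card_eq_card_quotient_mul_card_subgroup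
  have h2 : 1 < Nat.card (Subgroup.zpowers x) := by
    rw [Finite.one_lt_card_iff_nontrivial]
    rw [Subgroup.nontrivial_iff_ne_bot]
    intro h3
    exact hx (Subgroup.zpowers_eq_bot.1 h3)
  have h3 : 0 < Nat.card (G ⧸ Subgroup.zpowers x) := Nat.card_pos
  rw [h1]
  nlinarith

/-- GALL -/
theorem st_GALL (hADD : ST_GADD) (hQUO : ST_GQUO) (hIND : ST_GIND) (hTHN : ST_GTHN)
    (hRS1 : ST_RS1) : ST_GALL := by
  have main : ∀ (n : ℕ) (P k : Type) [Group P] [Finite P] [Field k] [CharZero k] [IsAlgClosed k],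
      IsPGroup 2 P → Nat.card P = n → GG P k := by
    intro n
    induction n using Nat.strong_induction_on with
    | _ n ih =>
      intro P k _ _ _ _ _ hS hn
      have hQ : ∀ (x : P), x ≠ 1 → ∀ [(Subgroup.zpowers x).Normal],
          GG (P ⧸ Subgroup.zpowers x) k := by
        intro x hx _
        refine ih _ ?_ (P ⧸ Subgroup.zpowers x) k (hS.to_quotient _) rfl
        rw [← hn]
        exact card_quot_lt x hx
      have hC : ∀ C : Subgroup P, C ≠ ⊤ → GG C k := by
        intro C hC
        refine ih _ ?_ C k (hS.to_subgroup _) rfl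
        rw [← hn]
        have h1 := C.card_eq_card_quotient_mul_card_subgroup
        have h2 : 1 < Nat.card (P ⧸ C) := by
          have h3 : Nat.card (P ⧸ C) = C.index := rfl
          have h4 : C.index ≠ 1 := by
            intro h
            exact hC (Subgroup.index_eq_one.1 h)
          have h5 : 0 < Nat.card (P ⧸ C) := Nat.card_pos
          omega
        have h3 : 0 < Nat.card C := Nat.card_pos
        rw [h1]
        nlinarith
      intro instP
      rcases Classical.em (Nontrivial P) with h0 | h0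
      · rcases Classical.em (Four P) with h1 | h1
        · exact good_four hADD hQUO hIND P k h1 hQ hC
        · obtain ⟨z, hz⟩ := hRS1 P hS h0 h1
          have hz1 : z ≠ 1 := by
            obtain ⟨a, M, hM, ho, hza, hc, -⟩ := hz
            rw [hza]
            intro h
            have h1 := orderOf_dvd_of_pow_eq_one h
            rw [ho] at h1
            have := Nat.le_of_dvd hM h1
            omega
          exact good_thin hADD hQUO hTHN P k hS z hz (fun {_} => hQ z hz1)
      · exact good_trivial P k h0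
  intro Ω P _ _ _ _ _ _ w π hb hS k V _ _ _ _ _ _ B hB r hr
  exact main _ P k hS rfl Ω w π hb V B hB r hr

end main

end PQ17
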